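import Pool.Agent.Helper9.QP.Defs
import Pool.Agent.Helper9.RS.N

/-!
# Base change of functors of points
-/

set_option autoImplicit false

namespace Pool.Agent.Helper49.QP

open Pool.Agent.Helper29.CQ Pool.Agent.Helper65.CC Pool.Agent.Helper87.CC
  Pool.Agent.Helper65.CC.KFn Pool.Agent.Helper9.QP
open Polynomial TensorProduct

variable {k K : Type} [Field k] [Field K] [Algebra k K]

/-- restriction of scalars -/
@[reducible] def rs (k K : Type) [Field k] [Field K] [Algebra k K] (R : Type) [CommRing R]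
    [Algebra K R] : Algebra k R := ((algebraMap K R).comp (algebraMap k K)).toAlgebra

/-- restriction of scalars for homomorphisms -/
def dn (k : Type) {K : Type} [Field k] [Field K] [Algebra k K] {R S : Type} [CommRing R]
    [CommRing S] [Algebra K R] [Algebra K S] (f : R →ₐ[K] S) :
    @AlgHom k R S _ _ _ (rs k K R) (rs k K S) :=
  letI := rs k K R
  letI := rs k K S
  { (f : R →+* S) with commutes' := fun s => f.commutes (algebraMap k K s) }

/-- the functor of the base change -/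
def bc (K : Type) [Field K] [Algebra k K] (F : KFn k) : KFn K where
  obj R _ _ := @KFn.obj k _ F R _ (rs k K R)
  map {R S} _ _ _ _ f x := @KFn.map k _ F R S _ _ (rs k K R) (rs k K S) (dn k f) x
  id_map {R} _ _ x := @KFn.id_map k _ F R _ (rs k K R) x
  comp_map {R S T} _ _ _ _ _ _ f g x :=
    @KFn.comp_map k _ F R S T _ _ _ (rs k K R) (rs k K S) (rs k K T) (dn k f) (dn k g) x

/-- the inclusion in the base change, a ring homomorphism -/
def incR (k K : Type) [Field k] [Field K] [Algebra k K] (W : Type) [CommRing W] [Algebra k W] :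
    W →+* K ⊗[k] W :=
  ((Algebra.TensorProduct.includeRight : W →ₐ[k] K ⊗[k] W) : W →+* K ⊗[k] W)

/-- the inclusion in the base change -/
def inc (K : Type) [Field K] [Algebra k K] (W : Type) [CommRing W] [Algebra k W] :
    @AlgHom k W (K ⊗[k] W) _ _ _ _ (rs k K (K ⊗[k] W)) :=
  @AlgHom.mk k W (K ⊗[k] W) _ _ _ _ (rs k K (K ⊗[k] W)) (incR k K W) fun s => by
      change (1 : K) ⊗ₜ[k] (algebraMap k W s) = (algebraMap k K s) ⊗ₜ[k] (1 : W)
      rw [Algebra.algebraMap_eq_smul_one (R := k) (A := W) s, ← TensorProduct.smul_tmul,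
        Algebra.algebraMap_eq_smul_one (R := k) (A := K) s]

theorem rep_bc {F : KFn k} {W : Type} [CommRing W] [Algebra k W] {w : F.obj W}
    (hw : F.Rep W w) : ∃ w', (bc K F).Rep (K ⊗[k] W) w' := by
  refine ⟨@KFn.map k _ F W (K ⊗[k] W) _ _ _ (rs k K (K ⊗[k] W)) (inc K W) w, ?_⟩
  intro R _ _ x
  let _ := rs k K R
  have _ : IsScalarTower k K R := IsScalarTower.of_algebraMap_eq fun _ => rfl
  obtain ⟨f, hf, hu⟩ := hw R x
  have key : ∀ g : K ⊗[k] W →ₐ[K] R,
      (bc K F).map g (@KFn.map k _ F W (K ⊗[k] W) _ _ _ (rs k K (K ⊗[k] W)) (inc K W) w) =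
        F.map (@AlgHom.comp k W (K ⊗[k] W) R _ _ _ _ _ (rs k K (K ⊗[k] W)) _ (dn k g)
          (inc K W)) w := by
    intro g
    exact (@KFn.comp_map k _ F W (K ⊗[k] W) R _ _ _ _ (rs k K (K ⊗[k] W)) _ (inc K W) (dn k g)
      w).symm
  let g0 : K ⊗[k] W →ₐ[K] R := Algebra.TensorProduct.lift (Algebra.ofId K R) f
    (fun _ _ => Commute.all _ _)
  refine ⟨g0, ?_, ?_⟩
  · change (bc K F).map g0 _ = x
    rw [key, ← hf]
    congr 1
    ext v
    change g0 ((1 : K) ⊗ₜ[k] v) = f v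
    simp only [g0, Algebra.TensorProduct.lift_tmul, map_one, one_mul]
  · intro g hg
    have h1 := hu _ ((key g).symm.trans hg)
    apply Algebra.TensorProduct.ext
    · ext
    · ext v
      have h2 : g ((1 : K) ⊗ₜ[k] v) = f v := DFunLike.congr_fun h1 v
      change g ((1 : K) ⊗ₜ[k] v) = g0 ((1 : K) ⊗ₜ[k] v)
      rw [h2]
      simp only [g0, Algebra.TensorProduct.lift_tmul, map_one, one_mul]

variable {G : ∀ (R : Type) [CommRing R] [Algebra K R], Prop}

theorem mem_bc (hG : KOps K G) (hW : Cst k G) {F : KFn k} {W : Type} [CommRing W]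
    [Algebra k W] {w : F.obj W} (hw : F.Rep W w) (hft : Algebra.FiniteType ℤ W)
    (hd : ringKrullDim W ≤ 1) : Rp (bc K F) ∧ (bc K F).Mem G := by
  obtain ⟨w', hw'⟩ := rep_bc (K := K) hw
  have h := hW W hft hd
  exact ⟨⟨_, _, _, w', hG.ft _ h, hw'⟩, Mem.of_rep hG hw' h⟩

/-- the value of a quartic form at three coordinates -/
def f4 {F : KFn k} (b : ℕ → ℕ → k) (X Y Z : Coord F) : Coord F :=
  ⟨fun x => F4 b (X.val x) (Y.val x) (Z.val x), fun f x => by
    rw [F4_map, X.nat, Y.nat, Z.nat]⟩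

/-- the slice `u ^ 2 = a`, `b = 0`, `c = 0` -/
def Sl (F : KFn k) (X Y Z : Coord F) (a b c : ℕ → ℕ → k) : KFn k :=
  dbl ((F.cls (f4 b X Y Z)).cls (resC _ (f4 c X Y Z))) (resC _ (resC _ (f4 a X Y Z)))

theorem ft_int_quot {A : Type} [CommRing A] (h : Algebra.FiniteType ℤ A) (I : Ideal A) :
    Algebra.FiniteType ℤ (A ⧸ I) :=
  h.of_surjective (Ideal.Quotient.mkₐ ℤ I) (Ideal.Quotient.mkₐ_surjective ℤ I)

theorem cst_adj {B : Type} [CommRing B] (β : B) (hft : Algebra.FiniteType ℤ B)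
    (hd : ringKrullDim B ≤ 1) : Algebra.FiniteType ℤ (AdjoinRoot (X ^ 2 - C β : B[X])) ∧
      ringKrullDim (AdjoinRoot (X ^ 2 - C β : B[X])) ≤ 1 := by
  refine ⟨hft.trans (inferInstance : Algebra.FiniteType B (AdjoinRoot (X ^ 2 - C β : B[X]))), ?_⟩
  have hm : (X ^ 2 - C β : B[X]).Monic := monic_X_pow_sub_C _ two_ne_zero
  have hfin := hm.finite_adjoinRoot
  exact (Pool.Agent.Helper9.RS.ringKrullDim_le_of_integral
    (Algebra.IsIntegral.of_finite B (AdjoinRoot (X ^ 2 - C β : B[X])))).trans hd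

theorem mem_Sl (hG : KOps K G) (hW : Cst k G) (F : KFn k) (X Y Z : Coord F)
    (a b c : ℕ → ℕ → k) {A : Type} [CommRing A] [Algebra k A] {w : F.obj A} (hw : F.Rep A w)
    (hft : Algebra.FiniteType ℤ A)
    (hd : ringKrullDim (A ⧸ Ideal.span {F4 b (X.val w) (Y.val w) (Z.val w)}) ≤ 1) :
    Rp (bc K (Sl F X Y Z a b c)) ∧ (bc K (Sl F X Y Z a b c)).Mem G := by
  obtain ⟨w1, hw1⟩ := hw.cls (f4 b X Y Z)
  obtain ⟨w2, hw2⟩ := hw1.cls (resC _ (f4 c X Y Z))
  obtain ⟨w3, hw3⟩ := rep_dbl (resC _ (resC _ (f4 a X Y Z))) hw2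
  have h := cst_adj ((resC _ (resC _ (f4 a X Y Z))).val w2)
    (ft_int_quot (ft_int_quot hft _) _) ((ringKrullDim_quotient_le _).trans hd)
  exact mem_bc hG hW hw3 h.1 h.2

end Pool.Agent.Helper49.QP
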