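import Pool.Agent.Helper49.QP.Fb.Slice

/-!
# Constant cones
-/

set_option autoImplicit false

namespace Pool.Agent.Helper49.QP

open Pool.Agent.Helper29.CQ Pool.Agent.Helper65.CC Pool.Agent.Helper87.CC
  Pool.Agent.Helper65.CC.KFn Pool.Agent.Helper9.QP
open Polynomial TensorProduct

/-- the quartic form as a function on the space with four coordinates -/
def ff {K : Type} [Field K] (c : ℕ → ℕ → K) : Coord (A4 K) :=
  ⟨fun x => F4 c x.1 x.2.1 x.2.2.1, fun f x => by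
    rw [F4_map]
    rfl⟩

/-- the difference of the square of the last coordinate and the quartic form -/
def uf {K : Type} [Field K] (c : ℕ → ℕ → K) : Coord (A4 K) :=
  ⟨fun x => x.2.2.2 ^ 2 - F4 c x.1 x.2.1 x.2.2.1, fun f x => by
    rw [map_sub, map_pow, F4_map]
    rfl⟩

/-- `u ^ 2 = a`, `b = 0`, `c = 0` -/
def T {K : Type} [Field K] (a b c : ℕ → ℕ → K) : KFn K :=
  (((A4 K).cls (uf a)).cls (resC _ (ff b))).cls (resC _ (resC _ (ff c)))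

instance {K : Type} [Field K] (a b c : ℕ → ℕ → K) : Rp (T a b c) := by
  unfold T
  infer_instance

/-- the first coordinate -/
def T.x {K : Type} [Field K] (a b c : ℕ → ℕ → K) : Coord (T a b c) :=
  ⟨fun x => x.1.1.1.1, fun _ _ => rfl⟩

/-- the second coordinate -/
def T.y {K : Type} [Field K] (a b c : ℕ → ℕ → K) : Coord (T a b c) :=
  ⟨fun x => x.1.1.1.2.1, fun _ _ => rfl⟩

theorem F4_hom {K : Type} [Field K] (c : ℕ → ℕ → K) {R : Type} [CommRing R] [Algebra K R]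
    (t x y z : R) : F4 c (t * x) (t * y) (t * z) = t ^ 4 * F4 c x y z := by
  simp only [F4]
  ring

variable {k K : Type} [Field k] [Field K] [Algebra k K]
  {G : ∀ (R : Type) [CommRing R] [Algebra K R], Prop}

/-- the coefficients over the large field -/
abbrev mp (K : Type) [Field K] [Algebra k K] (c : ℕ → ℕ → k) : ℕ → ℕ → K :=
  fun i j => algebraMap k K (c i j)

theorem F4_rs (c : ℕ → ℕ → k) {R : Type} [CommRing R] [Algebra K R] (x y z : R) :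
    @F4 k _ R _ (rs k K R) c x y z = F4 (mp K c) x y z := rfl

/-- the stratum `x ≠ 0` -/
noncomputable def iso1 (a b c : ℕ → ℕ → k) :
    Iso ((T (mp K a) (mp K b) (mp K c)).opn (T.x _ _ _))
      ((bc K (Sl (A2 k) (one' _) (yy k) (zz k) a b c)).line.opn (lineCoord _)) where
  hom {R} _ _ x := ⟨(⟨(⟨⟨(Ring.inverse x.1.1.1.1.1 * x.1.1.1.1.2.1,
      Ring.inverse x.1.1.1.1.1 * x.1.1.1.1.2.2.1), by
        have h0 : x.1.1.1.1.1 * Ring.inverse x.1.1.1.1.1 = 1 := mul_inv' x.2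
        have h1 : F4 (mp K b) x.1.1.1.1.1 x.1.1.1.1.2.1 x.1.1.1.1.2.2.1 = 0 := x.1.1.2
        change F4 (mp K b) (1 : R) (Ring.inverse x.1.1.1.1.1 * x.1.1.1.1.2.1)
          (Ring.inverse x.1.1.1.1.1 * x.1.1.1.1.2.2.1) = 0
        have h2 := F4_hom (mp K b) (Ring.inverse x.1.1.1.1.1) x.1.1.1.1.1 x.1.1.1.1.2.1
          x.1.1.1.1.2.2.1
        rw [mul_comm (Ring.inverse _) x.1.1.1.1.1, h0, h1, mul_zero] at h2
        exact h2⟩, by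
        have h0 : x.1.1.1.1.1 * Ring.inverse x.1.1.1.1.1 = 1 := mul_inv' x.2
        have h1 : F4 (mp K c) x.1.1.1.1.1 x.1.1.1.1.2.1 x.1.1.1.1.2.2.1 = 0 := x.1.2
        change F4 (mp K c) (1 : R) (Ring.inverse x.1.1.1.1.1 * x.1.1.1.1.2.1)
          (Ring.inverse x.1.1.1.1.1 * x.1.1.1.1.2.2.1) = 0
        have h2 := F4_hom (mp K c) (Ring.inverse x.1.1.1.1.1) x.1.1.1.1.1 x.1.1.1.1.2.1
          x.1.1.1.1.2.2.1
        rw [mul_comm (Ring.inverse _) x.1.1.1.1.1, h0, h1, mul_zero] at h2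
        exact h2⟩, Ring.inverse x.1.1.1.1.1 ^ 2 * x.1.1.1.1.2.2.2), by
        have h0 : x.1.1.1.1.1 * Ring.inverse x.1.1.1.1.1 = 1 := mul_inv' x.2
        have h1 : x.1.1.1.1.2.2.2 ^ 2 -
          F4 (mp K a) x.1.1.1.1.1 x.1.1.1.1.2.1 x.1.1.1.1.2.2.1 = 0 := x.1.1.1.2
        change (Ring.inverse x.1.1.1.1.1 ^ 2 * x.1.1.1.1.2.2.2) ^ 2 -
          F4 (mp K a) (1 : R) (Ring.inverse x.1.1.1.1.1 * x.1.1.1.1.2.1)
          (Ring.inverse x.1.1.1.1.1 * x.1.1.1.1.2.2.1) = 0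
        have h2 := F4_hom (mp K a) (Ring.inverse x.1.1.1.1.1) x.1.1.1.1.1 x.1.1.1.1.2.1
          x.1.1.1.1.2.2.1
        rw [mul_comm (Ring.inverse _) x.1.1.1.1.1, h0] at h2
        rw [h2]
        linear_combination (Ring.inverse x.1.1.1.1.1) ^ 4 * h1⟩, x.1.1.1.1.1), x.2⟩
  inv {R} _ _ y := ⟨⟨⟨⟨(y.1.2, y.1.2 * y.1.1.1.1.1.1.1, y.1.2 * y.1.1.1.1.1.1.2,
      y.1.2 ^ 2 * y.1.1.1.2), by
        have h1 : y.1.1.1.2 ^ 2 - F4 (mp K a) (1 : R) y.1.1.1.1.1.1.1 y.1.1.1.1.1.1.2 = 0 :=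
          y.1.1.2
        change (y.1.2 ^ 2 * y.1.1.1.2) ^ 2 - F4 (mp K a) y.1.2 (y.1.2 * y.1.1.1.1.1.1.1)
          (y.1.2 * y.1.1.1.1.1.1.2) = 0
        have h2 := F4_hom (mp K a) y.1.2 1 y.1.1.1.1.1.1.1 y.1.1.1.1.1.1.2
        rw [mul_one] at h2
        rw [h2]
        linear_combination y.1.2 ^ 4 * h1⟩, by
        have h1 : F4 (mp K b) (1 : R) y.1.1.1.1.1.1.1 y.1.1.1.1.1.1.2 = 0 := y.1.1.1.1.1.2
        change F4 (mp K b) y.1.2 (y.1.2 * y.1.1.1.1.1.1.1) (y.1.2 * y.1.1.1.1.1.1.2) = 0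
        have h2 := F4_hom (mp K b) y.1.2 1 y.1.1.1.1.1.1.1 y.1.1.1.1.1.1.2
        rw [mul_one] at h2
        rw [h2, h1, mul_zero]⟩, by
        have h1 : F4 (mp K c) (1 : R) y.1.1.1.1.1.1.1 y.1.1.1.1.1.1.2 = 0 := y.1.1.1.1.2
        change F4 (mp K c) y.1.2 (y.1.2 * y.1.1.1.1.1.1.1) (y.1.2 * y.1.1.1.1.1.1.2) = 0
        have h2 := F4_hom (mp K c) y.1.2 1 y.1.1.1.1.1.1.1 y.1.1.1.1.1.1.2
        rw [mul_one] at h2
        rw [h2, h1, mul_zero]⟩, y.2⟩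
  inv_hom {R} _ _ x := by
    have h0 : x.1.1.1.1.1 * Ring.inverse x.1.1.1.1.1 = 1 := mul_inv' x.2
    refine Subtype.ext (Subtype.ext (Subtype.ext (Subtype.ext (Prod.ext rfl (Prod.ext ?_
      (Prod.ext ?_ ?_))))))
    · change x.1.1.1.1.1 * (Ring.inverse x.1.1.1.1.1 * x.1.1.1.1.2.1) = x.1.1.1.1.2.1
      rw [← mul_assoc, h0, one_mul]
    · change x.1.1.1.1.1 * (Ring.inverse x.1.1.1.1.1 * x.1.1.1.1.2.2.1) = x.1.1.1.1.2.2.1
      rw [← mul_assoc, h0, one_mul]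
    · change x.1.1.1.1.1 ^ 2 * (Ring.inverse x.1.1.1.1.1 ^ 2 * x.1.1.1.1.2.2.2) = x.1.1.1.1.2.2.2
      rw [← mul_assoc, ← mul_pow, h0, one_pow, one_mul]
  hom_inv {R} _ _ y := by
    have h0 : y.1.2 * Ring.inverse y.1.2 = 1 := mul_inv' y.2
    have h0' : Ring.inverse y.1.2 * y.1.2 = 1 := (mul_comm _ _).trans h0
    refine Subtype.ext (Prod.ext (Subtype.ext (Prod.ext (Subtype.ext (Subtype.ext
      (Prod.ext ?_ ?_))) ?_)) rfl)
    · change Ring.inverse y.1.2 * (y.1.2 * y.1.1.1.1.1.1.1) = y.1.1.1.1.1.1.1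
      rw [← mul_assoc, h0', one_mul]
    · change Ring.inverse y.1.2 * (y.1.2 * y.1.1.1.1.1.1.2) = y.1.1.1.1.1.1.2
      rw [← mul_assoc, h0', one_mul]
    · change Ring.inverse y.1.2 ^ 2 * (y.1.2 ^ 2 * y.1.1.1.2) = y.1.1.1.2
      rw [← mul_assoc, ← mul_pow, h0', one_pow, one_mul]
  nat {R S} _ _ _ _ f x := by
    have h0 : IsUnit x.1.1.1.1.1 := x.2
    refine Subtype.ext (Prod.ext (Subtype.ext (Prod.ext (Subtype.ext (Subtype.ext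
      (Prod.ext ?_ ?_))) ?_)) rfl)
    · change f (Ring.inverse x.1.1.1.1.1 * x.1.1.1.1.2.1) =
        Ring.inverse (f x.1.1.1.1.1) * f x.1.1.1.1.2.1
      rw [map_mul, inv_nat f h0]
    · change f (Ring.inverse x.1.1.1.1.1 * x.1.1.1.1.2.2.1) =
        Ring.inverse (f x.1.1.1.1.1) * f x.1.1.1.1.2.2.1
      rw [map_mul, inv_nat f h0]
    · change f (Ring.inverse x.1.1.1.1.1 ^ 2 * x.1.1.1.1.2.2.2) =
        Ring.inverse (f x.1.1.1.1.1) ^ 2 * f x.1.1.1.1.2.2.2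
      rw [map_mul, map_pow, inv_nat f h0]

/-- the stratum `x = 0`, `y ≠ 0` -/
noncomputable def iso2 (a b c : ℕ → ℕ → k) :
    Iso (((T (mp K a) (mp K b) (mp K c)).cls (T.x _ _ _)).opn (resC _ (T.y _ _ _)))
      ((bc K (Sl (A1 k) (zero' _) (one' _) (A1.t k) a b c)).line.opn (lineCoord _)) where
  hom {R} _ _ x := ⟨(⟨(⟨⟨Ring.inverse x.1.1.1.1.1.2.1 * x.1.1.1.1.1.2.2.1, by
        have h0 : x.1.1.1.1.1.2.1 * Ring.inverse x.1.1.1.1.1.2.1 = 1 := mul_inv' x.2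
        have hx : x.1.1.1.1.1.1 = 0 := x.1.2
        have h1 : F4 (mp K b) x.1.1.1.1.1.1 x.1.1.1.1.1.2.1 x.1.1.1.1.1.2.2.1 = 0 := x.1.1.1.2
        change F4 (mp K b) (0 : R) (1 : R) (Ring.inverse x.1.1.1.1.1.2.1 * x.1.1.1.1.1.2.2.1) = 0
        have h2 := F4_hom (mp K b) (Ring.inverse x.1.1.1.1.1.2.1) x.1.1.1.1.1.1 x.1.1.1.1.1.2.1
          x.1.1.1.1.1.2.2.1
        rw [mul_comm (Ring.inverse _) x.1.1.1.1.1.2.1, h0, h1, hx, mul_zero, mul_zero] at h2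
        exact h2⟩, by
        have h0 : x.1.1.1.1.1.2.1 * Ring.inverse x.1.1.1.1.1.2.1 = 1 := mul_inv' x.2
        have hx : x.1.1.1.1.1.1 = 0 := x.1.2
        have h1 : F4 (mp K c) x.1.1.1.1.1.1 x.1.1.1.1.1.2.1 x.1.1.1.1.1.2.2.1 = 0 := x.1.1.2
        change F4 (mp K c) (0 : R) (1 : R) (Ring.inverse x.1.1.1.1.1.2.1 * x.1.1.1.1.1.2.2.1) = 0
        have h2 := F4_hom (mp K c) (Ring.inverse x.1.1.1.1.1.2.1) x.1.1.1.1.1.1 x.1.1.1.1.1.2.1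
          x.1.1.1.1.1.2.2.1
        rw [mul_comm (Ring.inverse _) x.1.1.1.1.1.2.1, h0, h1, hx, mul_zero, mul_zero] at h2
        exact h2⟩, Ring.inverse x.1.1.1.1.1.2.1 ^ 2 * x.1.1.1.1.1.2.2.2), by
        have h0 : x.1.1.1.1.1.2.1 * Ring.inverse x.1.1.1.1.1.2.1 = 1 := mul_inv' x.2
        have hx : x.1.1.1.1.1.1 = 0 := x.1.2
        have h1 : x.1.1.1.1.1.2.2.2 ^ 2 -
          F4 (mp K a) x.1.1.1.1.1.1 x.1.1.1.1.1.2.1 x.1.1.1.1.1.2.2.1 = 0 := x.1.1.1.1.2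
        change (Ring.inverse x.1.1.1.1.1.2.1 ^ 2 * x.1.1.1.1.1.2.2.2) ^ 2 -
          F4 (mp K a) (0 : R) (1 : R) (Ring.inverse x.1.1.1.1.1.2.1 * x.1.1.1.1.1.2.2.1) = 0
        have h2 := F4_hom (mp K a) (Ring.inverse x.1.1.1.1.1.2.1) x.1.1.1.1.1.1 x.1.1.1.1.1.2.1
          x.1.1.1.1.1.2.2.1
        rw [hx] at h1
        rw [mul_comm (Ring.inverse _) x.1.1.1.1.1.2.1, h0, hx, mul_zero] at h2
        rw [h2]
        linear_combination (Ring.inverse x.1.1.1.1.1.2.1) ^ 4 * h1⟩, x.1.1.1.1.1.2.1), x.2⟩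
  inv {R} _ _ y := ⟨⟨⟨⟨⟨(0, y.1.2, y.1.2 * (show R from y.1.1.1.1.1.1), y.1.2 ^ 2 * y.1.1.1.2), by
        have h1 : y.1.1.1.2 ^ 2 - F4 (mp K a) (0 : R) (1 : R) y.1.1.1.1.1.1 = 0 := y.1.1.2
        change (y.1.2 ^ 2 * y.1.1.1.2) ^ 2 - F4 (mp K a) (0 : R) y.1.2
          (y.1.2 * (show R from y.1.1.1.1.1.1)) = 0
        have h2 := F4_hom (mp K a) y.1.2 0 1 y.1.1.1.1.1.1
        rw [mul_one, mul_zero] at h2
        rw [h2]
        linear_combination y.1.2 ^ 4 * h1⟩, by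
        have h1 : F4 (mp K b) (0 : R) (1 : R) y.1.1.1.1.1.1 = 0 := y.1.1.1.1.1.2
        change F4 (mp K b) (0 : R) y.1.2 (y.1.2 * (show R from y.1.1.1.1.1.1)) = 0
        have h2 := F4_hom (mp K b) y.1.2 0 1 y.1.1.1.1.1.1
        rw [mul_one, mul_zero] at h2
        rw [h2, h1, mul_zero]⟩, by
        have h1 : F4 (mp K c) (0 : R) (1 : R) y.1.1.1.1.1.1 = 0 := y.1.1.1.1.2
        change F4 (mp K c) (0 : R) y.1.2 (y.1.2 * (show R from y.1.1.1.1.1.1)) = 0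
        have h2 := F4_hom (mp K c) y.1.2 0 1 y.1.1.1.1.1.1
        rw [mul_one, mul_zero] at h2
        rw [h2, h1, mul_zero]⟩, rfl⟩, y.2⟩
  inv_hom {R} _ _ x := by
    have h0 : x.1.1.1.1.1.2.1 * Ring.inverse x.1.1.1.1.1.2.1 = 1 := mul_inv' x.2
    have hx : x.1.1.1.1.1.1 = 0 := x.1.2
    refine Subtype.ext (Subtype.ext (Subtype.ext (Subtype.ext (Subtype.ext (Prod.ext hx.symm
      (Prod.ext rfl (Prod.ext ?_ ?_)))))))
    · change x.1.1.1.1.1.2.1 * (Ring.inverse x.1.1.1.1.1.2.1 * x.1.1.1.1.1.2.2.1) =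
        x.1.1.1.1.1.2.2.1
      rw [← mul_assoc, h0, one_mul]
    · change x.1.1.1.1.1.2.1 ^ 2 * (Ring.inverse x.1.1.1.1.1.2.1 ^ 2 * x.1.1.1.1.1.2.2.2) =
        x.1.1.1.1.1.2.2.2
      rw [← mul_assoc, ← mul_pow, h0, one_pow, one_mul]
  hom_inv {R} _ _ y := by
    have h0 : y.1.2 * Ring.inverse y.1.2 = 1 := mul_inv' y.2
    have h0' : Ring.inverse y.1.2 * y.1.2 = 1 := (mul_comm _ _).trans h0
    refine Subtype.ext (Prod.ext (Subtype.ext (Prod.ext (Subtype.ext (Subtype.ext ?_)) ?_)) rfl)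
    · change Ring.inverse y.1.2 * (y.1.2 * (show R from y.1.1.1.1.1.1)) = y.1.1.1.1.1.1
      rw [← mul_assoc, h0', one_mul]
    · change Ring.inverse y.1.2 ^ 2 * (y.1.2 ^ 2 * y.1.1.1.2) = y.1.1.1.2
      rw [← mul_assoc, ← mul_pow, h0', one_pow, one_mul]
  nat {R S} _ _ _ _ f x := by
    have h0 : IsUnit x.1.1.1.1.1.2.1 := x.2
    refine Subtype.ext (Prod.ext (Subtype.ext (Prod.ext (Subtype.ext (Subtype.ext ?_)) ?_)) rfl)
    · change f (Ring.inverse x.1.1.1.1.1.2.1 * x.1.1.1.1.1.2.2.1) =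
        Ring.inverse (f x.1.1.1.1.1.2.1) * f x.1.1.1.1.1.2.2.1
      rw [map_mul, inv_nat f h0]
    · change f (Ring.inverse x.1.1.1.1.1.2.1 ^ 2 * x.1.1.1.1.1.2.2.2) =
        Ring.inverse (f x.1.1.1.1.1.2.1) ^ 2 * f x.1.1.1.1.1.2.2.2
      rw [map_mul, map_pow, inv_nat f h0]

/-- the stratum `x = y = 0` -/
noncomputable def iso3 (a b c : ℕ → ℕ → k) :
    Iso (((T (mp K a) (mp K b) (mp K c)).cls (T.x _ _ _)).cls (resC _ (T.y _ _ _)))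
      (bc K (Sl (A1 k) (zero' _) (zero' _) (A1.t k) a b c)) where
  hom {R} _ _ x := ⟨(⟨⟨x.1.1.1.1.1.2.2.1, by
        have hx : x.1.1.1.1.1.1 = 0 := x.1.2
        have hy : x.1.1.1.1.1.2.1 = 0 := x.2
        have h1 : F4 (mp K b) x.1.1.1.1.1.1 x.1.1.1.1.1.2.1 x.1.1.1.1.1.2.2.1 = 0 := x.1.1.1.2
        change F4 (mp K b) (0 : R) (0 : R) x.1.1.1.1.1.2.2.1 = 0
        rw [hx, hy] at h1
        exact h1⟩, by
        have hx : x.1.1.1.1.1.1 = 0 := x.1.2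
        have hy : x.1.1.1.1.1.2.1 = 0 := x.2
        have h1 : F4 (mp K c) x.1.1.1.1.1.1 x.1.1.1.1.1.2.1 x.1.1.1.1.1.2.2.1 = 0 := x.1.1.2
        change F4 (mp K c) (0 : R) (0 : R) x.1.1.1.1.1.2.2.1 = 0
        rw [hx, hy] at h1
        exact h1⟩, x.1.1.1.1.1.2.2.2), by
        have hx : x.1.1.1.1.1.1 = 0 := x.1.2
        have hy : x.1.1.1.1.1.2.1 = 0 := x.2
        have h1 : x.1.1.1.1.1.2.2.2 ^ 2 -
          F4 (mp K a) x.1.1.1.1.1.1 x.1.1.1.1.1.2.1 x.1.1.1.1.1.2.2.1 = 0 := x.1.1.1.1.2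
        change x.1.1.1.1.1.2.2.2 ^ 2 - F4 (mp K a) (0 : R) (0 : R) x.1.1.1.1.1.2.2.1 = 0
        rw [hx, hy] at h1
        exact h1⟩
  inv {R} _ _ y := ⟨⟨⟨⟨⟨(0, 0, y.1.1.1.1, y.1.2), y.2⟩, y.1.1.1.2⟩, y.1.1.2⟩, rfl⟩, rfl⟩
  inv_hom {R} _ _ x := by
    have hx : x.1.1.1.1.1.1 = 0 := x.1.2
    have hy : x.1.1.1.1.1.2.1 = 0 := x.2
    exact Subtype.ext (Subtype.ext (Subtype.ext (Subtype.ext (Subtype.ext (Prod.ext hx.symm
      (Prod.ext hy.symm rfl))))))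
  hom_inv {R} _ _ y := rfl
  nat {R S} _ _ _ _ f x := rfl

/-- **constant cones** -/
theorem mem_T [Finite k] (hG : KOps K G) (hW : Cst k G) (a b c : ℕ → ℕ → k)
    (hb : ∃ i j, i + j ≤ 4 ∧ b i j ≠ 0) : (T (mp K a) (mp K b) (mp K c)).Mem G := by
  refine Mem.glue hG (T.x _ _ _) (Mem.of_iso (iso1 a b c) (mem_gm hG (mem_s1 hG hW a b c hb))) ?_
  refine Mem.glue hG (resC _ (T.y _ _ _)) (Mem.of_iso (iso2 a b c)
    (mem_gm hG (mem_s2 hG hW _ _ _ a b c))) ?_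
  exact Mem.of_iso (iso3 a b c) (mem_s2 hG hW _ _ _ a b c).2

end Pool.Agent.Helper49.QP
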