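import Pool.Agent.Helper49.QP.Fb.Base
import Pool.Agent.Helper87.CC.LowDeg
import Pool.Agent.Helper29.CQ.Split

/-!
# Slices of constant cones
-/

set_option autoImplicit false

namespace Pool.Agent.Helper49.QP

open Pool.Agent.Helper29.CQ Pool.Agent.Helper65.CC Pool.Agent.Helper87.CC
  Pool.Agent.Helper65.CC.KFn Pool.Agent.Helper9.QP
open Polynomial TensorProduct

section reps

variable {k : Type} [Field k]

/-- the constant coordinate one -/
def one' (F : KFn k) : Coord F := ⟨fun _ => 1, fun _ _ => map_one _⟩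

/-- the constant coordinate zero -/
def zero' (F : KFn k) : Coord F := ⟨fun _ => 0, fun _ _ => map_zero _⟩

/-- the first coordinate of the plane -/
def yy (k : Type) [Field k] : Coord (A2 k) := ⟨fun x => x.1, fun _ _ => rfl⟩

/-- the second coordinate of the plane -/
def zz (k : Type) [Field k] : Coord (A2 k) := ⟨fun x => x.2, fun _ _ => rfl⟩

theorem rep_A1 : ∃ w, (A1 k).Rep k[X] w := by
  obtain ⟨b, hb⟩ := (rep_pnt (K := k)).line
  exact ⟨_, hb.iso isoA1⟩

theorem rep_A2 : ∃ w, (A2 k).Rep k[X][X] w := by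
  obtain ⟨w, hw⟩ := rep_A1 (k := k)
  obtain ⟨b, hb⟩ := hw.line
  exact ⟨_, hb.iso isoA2⟩

theorem ft_k [Finite k] : Algebra.FiniteType ℤ k := by
  have : Module.Finite ℤ k := Module.Finite.of_finite
  infer_instance

theorem dim_X : ringKrullDim k[X] = 1 := by
  rw [Polynomial.ringKrullDim_of_isNoetherianRing, ringKrullDim_eq_zero_of_field, zero_add]

theorem dim_XX : ringKrullDim k[X][X] = 2 := by
  rw [Polynomial.ringKrullDim_of_isNoetherianRing, dim_X]
  rfl

theorem coef (b : ℕ → ℕ → k) (i j : ℕ) (h : i + j ≤ 4) :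
    (F4 b (1 : k[X]) (X ^ 5) X).coeff (4 - i - j + 5 * j) = b i j := by
  have hi : i ≤ 4 := by omega
  have hj : j ≤ 4 := by omega
  have e : F4 b (1 : k[X]) (X ^ 5) X = C (b 0 0) * X ^ 4 + C (b 1 0) * X ^ 3 +
      C (b 0 1) * X ^ 8 + C (b 2 0) * X ^ 2 + C (b 1 1) * X ^ 7 + C (b 0 2) * X ^ 12 +
      C (b 3 0) * X ^ 1 + C (b 2 1) * X ^ 6 + C (b 1 2) * X ^ 11 + C (b 0 3) * X ^ 16 +
      C (b 4 0) * X ^ 0 + C (b 3 1) * X ^ 5 + C (b 2 2) * X ^ 10 + C (b 1 3) * X ^ 15 +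
      C (b 0 4) * X ^ 20 := by
    simp only [F4, Polynomial.algebraMap_eq]
    ring
  rw [e]
  simp only [coeff_add, coeff_C_mul, coeff_X_pow]
  interval_cases i <;> interval_cases j <;> first | (exfalso; omega) | simp

theorem F4_ne (b : ℕ → ℕ → k) (hb : ∃ i j, i + j ≤ 4 ∧ b i j ≠ 0) {w : (A2 k).obj k[X][X]}
    (hw : (A2 k).Rep k[X][X] w) : F4 b (1 : k[X][X]) w.1 w.2 ≠ 0 := by
  intro h0
  obtain ⟨i, j, hij, hb⟩ := hb
  obtain ⟨f, hf, -⟩ := hw k[X] (X ^ 5, X)
  have h1 := F4_map b f 1 w.1 w.2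
  rw [h0, map_zero, map_one] at h1
  have h2 : f w.1 = X ^ 5 := congrArg Prod.fst hf
  have h3 : f w.2 = X := congrArg Prod.snd hf
  rw [h2, h3] at h1
  apply hb
  rw [← coef b i j hij, ← h1, coeff_zero]

end reps

variable {k K : Type} [Field k] [Field K] [Algebra k K]
  {G : ∀ (R : Type) [CommRing R] [Algebra K R], Prop}

theorem mem_s1 [Finite k] (hG : KOps K G) (hW : Cst k G) (a b c : ℕ → ℕ → k)
    (hb : ∃ i j, i + j ≤ 4 ∧ b i j ≠ 0) :
    Rp (bc K (Sl (A2 k) (one' _) (yy k) (zz k) a b c)) ∧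
      (bc K (Sl (A2 k) (one' _) (yy k) (zz k) a b c)).Mem G := by
  obtain ⟨w, hw⟩ := rep_A2 (k := k)
  refine mem_Sl hG hW _ _ _ _ a b c hw ?_ ?_
  · exact ft_k.trans ((inferInstance : Algebra.FiniteType k k[X]).trans
      (inferInstance : Algebra.FiniteType k[X] k[X][X]))
  · have h2 := ringKrullDim_quotient_succ_le_of_nonZeroDivisor
      (mem_nonZeroDivisors_of_ne_zero (F4_ne b hb hw))
    rw [dim_XX] at h2
    exact Pool.Agent.Helper87.CC.dim_le_one h2

theorem mem_s2 [Finite k] (hG : KOps K G) (hW : Cst k G) (X' Y' Z' : Coord (A1 k))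
    (a b c : ℕ → ℕ → k) : Rp (bc K (Sl (A1 k) X' Y' Z' a b c)) ∧
      (bc K (Sl (A1 k) X' Y' Z' a b c)).Mem G := by
  obtain ⟨w, hw⟩ := rep_A1 (k := k)
  refine mem_Sl hG hW _ _ _ _ a b c hw ?_ ?_
  · exact ft_k.trans (inferInstance : Algebra.FiniteType k k[X])
  · exact (ringKrullDim_quotient_le _).trans dim_X.le

/-- the product with the punctured line -/
theorem mem_gm (hG : KOps K G) {F : KFn K} (h : Rp F ∧ F.Mem G) :
    (F.line.opn F.lineCoord).Mem G := by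
  have h1 := h.1
  exact mem_opn hG _ (Mem.line hG h.2) (Mem.of_iso F.zeroSection h.2)

end Pool.Agent.Helper49.QP
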